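import Pool.Agent.Run7.h529.AL.No

/-!
# The limit law of the area of self-avoiding polygons, fixed perimeter, `q > 1`

For every `q > 1` the deficit `⌊m ^ 2 / 4⌋ - X_m` converges in distribution, with all moments,
along the even and along the odd half-perimeters. The two limit laws are explicit, discrete and
different. Hence `(X_m - E X_m) / √(Var X_m)` has non-Gaussian limit laws along the even and along
the odd half-perimeters, and no limit law along all half-perimeters.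
-/

set_option autoImplicit false

namespace Pool.Agent.Results.MP_d21795_pr.InflatedLimitLaw

open Filter Topology MeasureTheory

/-- `ω` runs around a simple closed nearest-neighbour path with `2 m` steps: it is periodic with
period `2 m`, it has unit steps, and its first `2 m` vertices are distinct. -/
def SimpleClosed (m : ℕ) (ω : ℕ → ℤ × ℤ) : Prop :=
  (∀ i, ω (i + 2 * m) = ω i) ∧
  (∀ i, |(ω i).1 - (ω (i + 1)).1| + |(ω i).2 - (ω (i + 1)).2| = 1) ∧
  (∀ i j, i < 2 * m → j < 2 * m → ω i = ω j → i = j)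

/-- The set of the edges of the path (unordered pairs of lattice points). -/
def edgeSet (m : ℕ) (ω : ℕ → ℤ × ℤ) : Set (Sym2 (ℤ × ℤ)) :=
  {e | ∃ k, k < 2 * m ∧ e = s(ω k, ω (k + 1))}

/-- The bounding box of the vertices of `P` has its lower left corner at the origin. -/
def AtOrigin (P : Set (Sym2 (ℤ × ℤ))) : Prop :=
  (∀ e ∈ P, ∀ v ∈ e, 0 ≤ v.1 ∧ 0 ≤ v.2) ∧ (∃ e ∈ P, ∃ v ∈ e, v.1 = 0) ∧
    (∃ e ∈ P, ∃ v ∈ e, v.2 = 0)

/-- Self-avoiding polygons with half-perimeter `m`, as sets of edges, one representative of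
each class up to translation. -/
def polygons (m : ℕ) : Set (Set (Sym2 (ℤ × ℤ))) :=
  {P | 2 ≤ m ∧ (∃ ω, SimpleClosed m ω ∧ P = edgeSet m ω) ∧ AtOrigin P}

/-- The unit square with lower left corner `c` is enclosed by `P`: the vertical ray upwards from
its centre crosses an odd number of edges of `P`. -/
def Encloses (P : Set (Sym2 (ℤ × ℤ))) (c : ℤ × ℤ) : Prop :=
  Odd {h : ℤ | c.2 < h ∧ s((c.1, h), (c.1 + 1, h)) ∈ P}.ncard

/-- The area: the number of enclosed unit squares. -/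
noncomputable def area (P : Set (Sym2 (ℤ × ℤ))) : ℕ := {c : ℤ × ℤ | Encloses P c}.ncard

/-- The number of self-avoiding polygons with half-perimeter `m` and area `n`. -/
noncomputable def p (m n : ℕ) : ℕ := {P : Set (Sym2 (ℤ × ℤ)) | P ∈ polygons m ∧ area P = n}.ncard

/-- The partition function of the fixed perimeter ensemble. -/
noncomputable def Z (q : ℝ) (m : ℕ) : ℝ := ∑' n : ℕ, (p m n : ℝ) * q ^ n

/-- The probability that the area `X_m` equals `n`. -/
noncomputable def prob (q : ℝ) (m n : ℕ) : ℝ := (p m n : ℝ) * q ^ n / Z q m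

/-- The mean of `X_m`. -/
noncomputable def mean (q : ℝ) (m : ℕ) : ℝ := ∑' n : ℕ, prob q m n * n

/-- The variance of `X_m`. -/
noncomputable def var (q : ℝ) (m : ℕ) : ℝ := ∑' n : ℕ, prob q m n * ((n : ℝ) - mean q m) ^ 2

/-- The probability that `g X_m ≤ t`. -/
noncomputable def distr (q : ℝ) (m : ℕ) (g : ℕ → ℝ) (t : ℝ) : ℝ :=
  ∑' n : ℕ, if g n ≤ t then prob q m n else 0

/-- The pairs of an integer `k` and four partitions, given by multiplicities (the `i`-th partition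
has `x.2 i j` parts of size `j + 1`), with `k (k + ε)` plus the four sizes equal to `d`. -/
def tuples (ε d : ℕ) : Set (ℤ × (Fin 4 → Fin d → ℕ)) :=
  {x | x.1 * (x.1 + ε) + ∑ i : Fin 4, ∑ j : Fin d, (((j : ℕ) : ℤ) + 1) * (x.2 i j : ℤ) = d}

/-- The number of these pairs. -/
noncomputable def t (ε d : ℕ) : ℕ := (tuples ε d).ncard

/-- The limit law of the deficit: mass proportional to `t ε d * q ^ (-d)`. -/
noncomputable def limitLaw (q : ℝ) (ε d : ℕ) : ℝ :=
  (t ε d : ℝ) * q⁻¹ ^ d / ∑' e : ℕ, (t ε e : ℝ) * q⁻¹ ^ e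

/-- The mean of the limit law. -/
noncomputable def limitMean (q : ℝ) (ε : ℕ) : ℝ := ∑' e : ℕ, limitLaw q ε e * e

/-- The variance of the limit law. -/
noncomputable def limitVar (q : ℝ) (ε : ℕ) : ℝ :=
  ∑' e : ℕ, limitLaw q ε e * ((e : ℝ) - limitMean q ε) ^ 2

/-- The largest area `⌊m ^ 2 / 4⌋`. -/
def top (m : ℕ) : ℕ := m * m / 4

lemma polygons_eq (m : ℕ) : polygons m = Run7.h529.AL.SAP m := by
  ext P
  constructor
  · rintro ⟨hm, ⟨ω, ⟨h1, h2, h3⟩, h4⟩, h5⟩
    exact ⟨hm, ⟨ω, ⟨h1, h2, h3⟩, h4⟩, h5⟩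
  · rintro ⟨hm, ⟨ω, hω, h4⟩, h5⟩
    exact ⟨hm, ⟨ω, ⟨hω.per, hω.adj, hω.inj⟩, h4⟩, h5⟩

lemma p_eq (m n : ℕ) : p m n = Run7.h529.AL.p m n := by
  unfold p Run7.h529.AL.p
  rw [polygons_eq]
  rfl

lemma Z_eq (q : ℝ) (m : ℕ) : Z q m = Run7.h529.AL.Z q m := by
  unfold Z Run7.h529.AL.Z
  simp_rw [p_eq]

lemma prob_eq (q : ℝ) (m n : ℕ) : prob q m n = Run7.h529.AL.prob q m n := by
  unfold prob Run7.h529.AL.prob
  rw [p_eq, Z_eq]

lemma mean_eq (q : ℝ) (m : ℕ) : mean q m = Run7.h529.AL.mean q m := by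
  unfold mean Run7.h529.AL.mean
  simp_rw [prob_eq]

lemma var_eq (q : ℝ) (m : ℕ) : var q m = Run7.h529.AL.var q m := by
  unfold var Run7.h529.AL.var
  simp_rw [prob_eq, mean_eq]

lemma distr_eq (q : ℝ) (m : ℕ) (g : ℕ → ℝ) (t : ℝ) :
    distr q m g t = ∑' n : ℕ, if g n ≤ t then Run7.h529.AL.prob q m n else 0 := by
  unfold distr
  simp_rw [prob_eq]

lemma tuples_eq (ε d : ℕ) : tuples ε d = Run7.h529.AL.T ε d := by
  ext x
  unfold tuples Run7.h529.AL.T Run7.h529.AL.wt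
  simp only [Set.mem_ofPred_eq]
  push_cast
  rfl

lemma t_eq (ε d : ℕ) : t ε d = Run7.h529.AL.t ε d := by
  unfold t Run7.h529.AL.t
  rw [tuples_eq]

lemma limitLaw_eq (q : ℝ) (ε d : ℕ) : limitLaw q ε d = Run7.h529.AL.L q ε d := by
  unfold limitLaw Run7.h529.AL.L Run7.h529.AL.Th
  simp_rw [t_eq]

lemma limitMean_eq (q : ℝ) (ε : ℕ) : limitMean q ε = Run7.h529.AL.mu q ε := by
  unfold limitMean Run7.h529.AL.mu
  simp_rw [limitLaw_eq]

lemma limitVar_eq (q : ℝ) (ε : ℕ) : limitVar q ε = Run7.h529.AL.sq q ε := by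
  unfold limitVar Run7.h529.AL.sq
  simp_rw [limitLaw_eq, limitMean_eq]

theorem result (q : ℝ) (hq : 1 < q) :
    -- the polygons with half-perimeter `m` are finite in number and have area at most `top m`
    (∀ m, (polygons m).Finite) ∧
    (∀ m n, p m n ≠ 0 → n ≤ top m) ∧
    -- the exact number of polygons with a given deficit
    (∀ ε, ε ≤ 1 → ∀ d, (tuples ε d).Finite ∧
      ∀ l, 4 * d + 4 ≤ l → p (2 * l + ε) (top (2 * l + ε) - d) = t ε d) ∧
    -- the limit laws along the even (`ε = 0`) and the odd (`ε = 1`) half-perimeters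
    (∀ ε, ε ≤ 1 →
      (∀ d, 0 ≤ limitLaw q ε d) ∧ HasSum (limitLaw q ε) 1 ∧
      (∀ d, Tendsto (fun l => prob q (2 * l + ε) (top (2 * l + ε) - d)) atTop
        (𝓝 (limitLaw q ε d))) ∧
      (∀ (s K : ℝ) (g : ℕ → ℝ), 0 < s → s < q → (∀ e, |g e| ≤ K * s ^ e) →
        Summable (fun e => limitLaw q ε e * g e) ∧
        Tendsto (fun l => ∑' n : ℕ, prob q (2 * l + ε) n * g (top (2 * l + ε) - n)) atTop
          (𝓝 (∑' e : ℕ, limitLaw q ε e * g e))) ∧
      Tendsto (fun l => (top (2 * l + ε) : ℝ) - mean q (2 * l + ε)) atTop (𝓝 (limitMean q ε)) ∧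
      Tendsto (fun l => var q (2 * l + ε)) atTop (𝓝 (limitVar q ε)) ∧ 0 < limitVar q ε ∧
      (∀ τ : ℝ, (∀ e : ℕ, (limitMean q ε - e) / √(limitVar q ε) ≠ τ) →
        Tendsto (fun l => distr q (2 * l + ε)
          (fun n => ((n : ℝ) - mean q (2 * l + ε)) / √(var q (2 * l + ε))) τ) atTop
          (𝓝 (∑' e : ℕ, if (limitMean q ε - e) / √(limitVar q ε) ≤ τ then limitLaw q ε e
            else 0)))) ∧
    -- uniform bounds for all half-perimeters
    (∃ c : ℝ, 0 < c ∧ ∀ m, 2 ≤ m → c ≤ prob q m (top m)) ∧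
    (∀ s : ℝ, 0 < s → s < q → ∃ C : ℝ, ∀ m, 2 ≤ m →
      ∑' n : ℕ, prob q m n * s ^ (top m - n) ≤ C) ∧
    (∃ C : ℝ, ∀ m, 2 ≤ m → var q m ≤ C) ∧
    -- the limits along the even and the odd half-perimeters are different
    (t 0 0 = 1 ∧ t 0 1 = 6 ∧ t 1 0 = 2 ∧ t 1 1 = 8) ∧
    (¬ ∃ P : ℕ → ℝ, ∀ d, Tendsto (fun m => prob q m (top m - d)) atTop (𝓝 (P d))) ∧
    -- the standardised area has no limit law along all half-perimeters
    (∀ ν : Measure ℝ, IsProbabilityMeasure ν →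
      ¬ ∀ τ : ℝ, ν {τ} = 0 →
        Tendsto (fun m => distr q m (fun n => ((n : ℝ) - mean q m) / √(var q m)) τ) atTop
          (𝓝 (ν.real (Set.Iic τ)))) ∧
    -- no limit law without atoms, for any centring and scaling, along any subsequence
    (∀ μ : Measure ℝ, IsProbabilityMeasure μ → (∀ t, μ {t} = 0) →
      ∀ φ : ℕ → ℕ, Tendsto φ atTop atTop → ∀ α β : ℕ → ℝ,
        ¬ ∀ t : ℝ, Tendsto (fun k => distr q (φ k) (fun n => ((n : ℝ) - α k) / β k) t) atTop
          (𝓝 (μ.real (Set.Iic t)))) ∧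
    -- in particular no convergence to the standard normal law
    ¬ ∀ t : ℝ, Tendsto (fun m => distr q m (fun n => ((n : ℝ) - mean q m) / √(var q m)) t) atTop
        (𝓝 ((ProbabilityTheory.gaussianReal 0 1).real (Set.Iic t))) := by
  have h6 : ∀ μ : Measure ℝ, IsProbabilityMeasure μ → (∀ t, μ {t} = 0) →
      ∀ φ : ℕ → ℕ, Tendsto φ atTop atTop → ∀ α β : ℕ → ℝ,
        ¬ ∀ t : ℝ, Tendsto (fun k => distr q (φ k) (fun n => ((n : ℝ) - α k) / β k) t) atTop
          (𝓝 (μ.real (Set.Iic t))) := by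
    intro μ _ hμ φ hφ α β h
    simp_rw [distr_eq] at h
    exact Run7.h529.AL.no_cont hq μ hμ φ hφ (fun k n => ((n : ℝ) - α k) / β k) h
  refine ⟨fun m => ?_, fun m n h => ?_, fun ε hε d => ⟨?_, fun l hl => ?_⟩,
    fun ε hε => ⟨fun d => ?_, ?_, fun d => ?_, fun s K g hs0 hs hg => ⟨?_, ?_⟩, ?_, ?_, ?_,
      fun τ hτ => ?_⟩, ?_, fun s h1 h2 => ?_, ?_, ⟨?_, ?_, ?_, ?_⟩, ?_, fun ν hν => ?_, h6, ?_⟩
  · rw [polygons_eq]
    exact Run7.h529.AL.sap_finite m
  · by_contra h'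
    rw [p_eq] at h
    unfold top at h'
    exact h (Run7.h529.AL.p_zero (by omega))
  · rw [tuples_eq]
    exact Run7.h529.AL.T_finite hε
  · rw [p_eq, t_eq]
    exact Run7.h529.AL.p_eq_T hε hl
  · rw [limitLaw_eq]
    exact Run7.h529.AL.L_nonneg hq hε d
  · have h := Run7.h529.AL.L_hasSum hq hε
    rwa [show limitLaw q ε = Run7.h529.AL.L q ε from funext (limitLaw_eq q ε)]
  · simp_rw [prob_eq, limitLaw_eq]
    exact Run7.h529.AL.lim_law hq hε d
  · simp_rw [limitLaw_eq]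
    exact (Run7.h529.AL.lim_E hq hε hs0 hs hg).2
  · simp_rw [prob_eq, limitLaw_eq]
    exact (Run7.h529.AL.lim_E hq hε hs0 hs hg).1
  · simp_rw [mean_eq, limitMean_eq]
    exact Run7.h529.AL.mean_lim hq hε
  · simp_rw [var_eq, limitVar_eq]
    exact Run7.h529.AL.var_lim hq hε
  · rw [limitVar_eq]
    exact Run7.h529.AL.sq_pos' hq hε
  · simp_rw [distr_eq, mean_eq, var_eq, limitLaw_eq, limitMean_eq, limitVar_eq]
    rw [limitMean_eq, limitVar_eq] at hτ
    exact Run7.h529.AL.std_lim hq hε τ hτ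
  · obtain ⟨c, hc, h⟩ := Run7.h529.AL.atom hq
    refine ⟨c, hc, fun m hm => ?_⟩
    rw [prob_eq]
    exact h m hm
  · obtain ⟨C, -, h⟩ := Run7.h529.AL.moment h1 h2
    refine ⟨C, fun m hm => ?_⟩
    simp_rw [prob_eq]
    rw [Run7.h529.AL.tsum_p (fun n hn => by rw [Run7.h529.AL.prob_zero hn]; simp)]
    exact h m hm
  · obtain ⟨C, h⟩ := Run7.h529.AL.var_bound hq
    refine ⟨C, fun m hm => ?_⟩
    rw [var_eq]
    exact h m hm
  · rw [t_eq]; exact Run7.h529.AL.t00
  · rw [t_eq]; exact Run7.h529.AL.t01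
  · rw [t_eq]; exact Run7.h529.AL.t10
  · rw [t_eq]; exact Run7.h529.AL.t11
  · simp_rw [prob_eq]
    exact Run7.h529.AL.no_common hq
  · simp_rw [distr_eq, mean_eq, var_eq]
    exact Run7.h529.AL.no_std hq ν
  · have hg := ProbabilityTheory.nullSingletonClass_gaussianReal (μ := 0) (v := 1) (by norm_num)
    exact h6 (ProbabilityTheory.gaussianReal 0 1) inferInstance
      (fun t => measure_singleton t) id tendsto_id (fun m => mean q m) (fun m => √(var q m))

end Pool.Agent.Results.MP_d21795_pr.InflatedLimitLaw
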